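import Pool.Agent.P8H71.SK.Stm

set_option autoImplicit false

open MeasureTheory Set Filter Topology
open scoped ENNReal symmDiff

namespace Pool.Agent.P8H91.SK

open Pool.Agent.P8H71.SK

theorem lim (one : S_ONE) : S_LIM := by
  intro d hd E hE g hg hEg
  have hce : IsClosedEmbedding ((↑) : SLd d → Matrix (Fin d) (Fin d) ℝ) :=
    Matrix.SpecialLinearGroup.isClosedEmbedding_val
  have hsel : ∀ k : ℕ, ∃ n, k ≤ n ∧ ∃ i j : Fin d, i ≠ j ∧ ∃ a b, (k : ℝ) < |(g n).1 a i * ((g n)⁻¹).1 j b| := by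
    intro k
    have h1 := one d hd (fun n => g (n + k)) ?_ k
    · obtain ⟨n, i, j, hij, a, b, h⟩ := h1
      exact ⟨n + k, by omega, i, j, hij, a, b, h⟩
    · intro C
      obtain ⟨N, hN⟩ := eventually_atTop.1 (hg C)
      obtain ⟨a, b, h⟩ := hN (N + k) (by omega)
      exact ⟨N, a, b, h⟩
  choose n hn i j hij a b hab using hsel
  let u : ℕ → (Fin d → ℝ) := fun k a => (g (n k)).1 a (i k)
  let v : ℕ → (Fin d → ℝ) := fun k b => ((g (n k))⁻¹).1 (j k) b
  have huv : ∀ k, v k ⬝ᵥ u k = 0 := by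
    intro k
    have h : (((g (n k))⁻¹ * g (n k) : SLd d)).1 (j k) (i k) = (1 : SLd d).1 (j k) (i k) := by
      rw [inv_mul_cancel]
    have h2 : (((g (n k))⁻¹).1 * (g (n k)).1) (j k) (i k) = (1 : Matrix (Fin d) (Fin d) ℝ) (j k) (i k) := h
    rw [Matrix.one_apply_ne (hij k).symm] at h2
    exact h2
  have hs : ∀ k : ℕ, (k : ℝ) < ‖u k‖ * ‖v k‖ := by
    intro k
    calc (k : ℝ) < |u k (a k) * v k (b k)| := hab k
      _ = ‖u k (a k)‖ * ‖v k (b k)‖ := by rw [abs_mul]; rfl
      _ ≤ ‖u k‖ * ‖v k‖ := mul_le_mul (norm_le_pi_norm _ _) (norm_le_pi_norm _ _) (norm_nonneg _)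
          (norm_nonneg _)
  have hs0 : ∀ k, 0 < ‖u k‖ * ‖v k‖ := fun k => lt_of_le_of_lt (Nat.cast_nonneg k) (hs k)
  have hu0 : ∀ k, ‖u k‖ ≠ 0 := fun k h => by have := hs0 k; rw [h, zero_mul] at this; exact lt_irrefl _ this
  have hv0 : ∀ k, ‖v k‖ ≠ 0 := fun k h => by have := hs0 k; rw [h, mul_zero] at this; exact lt_irrefl _ this
  let u' : ℕ → (Fin d → ℝ) := fun k => (‖u k‖)⁻¹ • u k
  let v' : ℕ → (Fin d → ℝ) := fun k => (‖v k‖)⁻¹ • v k
  have hu' : ∀ k, u' k ∈ Metric.sphere (0 : Fin d → ℝ) 1 := by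
    intro k
    simp only [u', mem_sphere_iff_norm, sub_zero, norm_smul, norm_inv, norm_norm]
    exact inv_mul_cancel₀ (hu0 k)
  have hv' : ∀ k, v' k ∈ Metric.sphere (0 : Fin d → ℝ) 1 := by
    intro k
    simp only [v', mem_sphere_iff_norm, sub_zero, norm_smul, norm_inv, norm_norm]
    exact inv_mul_cancel₀ (hv0 k)
  obtain ⟨⟨c, e⟩, hcemem, φ, hφ, hlim⟩ :=
    ((isCompact_sphere (0 : Fin d → ℝ) 1).prod (isCompact_sphere (0 : Fin d → ℝ) 1)).tendsto_subseq
      (x := fun k => (u' k, v' k)) (fun k => ⟨hu' k, hv' k⟩)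
  have hlc : Tendsto (fun k => u' (φ k)) atTop (𝓝 c) := (Prod.tendsto_iff _ _).1 hlim |>.1
  have hle : Tendsto (fun k => v' (φ k)) atTop (𝓝 e) := (Prod.tendsto_iff _ _).1 hlim |>.2
  have hc1 : ‖c‖ = 1 := by simpa using hcemem.1
  have he1 : ‖e‖ = 1 := by simpa using hcemem.2
  have hxt : ∀ t : ℝ, Tendsto (fun k => t / (‖u k‖ * ‖v k‖)) atTop (𝓝 0) := by
    intro t
    refine Tendsto.div_atTop tendsto_const_nhds ?_
    exact tendsto_atTop_mono (fun k => (hs k).le) tendsto_natCast_atTop_atTop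
  refine ⟨c, e, ?_, ?_, ?_, ?_⟩
  · rintro rfl; simp at hc1
  · rintro rfl; simp at he1
  · have h1 : Tendsto (fun k => v' (φ k) ⬝ᵥ u' (φ k)) atTop (𝓝 (e ⬝ᵥ c)) := by
      have hcont : Continuous (fun p : (Fin d → ℝ) × (Fin d → ℝ) => p.2 ⬝ᵥ p.1) :=
        continuous_snd.dotProduct continuous_fst
      exact (hcont.tendsto (c, e)).comp hlim
    have h2 : ∀ k, v' (φ k) ⬝ᵥ u' (φ k) = 0 := by
      intro k
      simp only [u', v', smul_dotProduct, dotProduct_smul, huv, smul_zero]
    simp only [h2] at h1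
    exact (tendsto_nhds_unique h1 tendsto_const_nhds)
  · intro t h hh
    let x : ℕ → ℝ := fun k => t / (‖u k‖ * ‖v k‖)
    let H : ℕ → SLd d := fun k => g (n k) * el (i k) (j k) (hij k) (x k) * (g (n k))⁻¹
    have hH : ∀ k, (H k).1 = 1 + t • Matrix.vecMulVec (u' k) (v' k) := by
      intro k
      have h0 : (H k).1 = (g (n k)).1 * (1 + Matrix.single (i k) (j k) (x k)) * ((g (n k))⁻¹).1 := rfl
      have h1 : (g (n k)).1 * ((g (n k))⁻¹).1 = 1 := by
        have : ((g (n k)) * ((g (n k))⁻¹) : SLd d).1 = (1 : SLd d).1 := by rw [mul_inv_cancel]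
        exact this
      rw [h0, mul_add, add_mul, mul_one, h1]
      congr 1
      ext p q
      rw [Matrix.mul_apply]
      simp only [Matrix.smul_apply, Matrix.vecMulVec_apply, smul_eq_mul, u', v', Pi.smul_apply]
      rw [Finset.sum_eq_single (j k)]
      · rw [Matrix.mul_single_apply_same]
        simp only [u, v, x]
        have := hu0 k
        have := hv0 k
        field_simp
      · intro r _ hr
        rw [Matrix.mul_single_apply_of_ne _ _ _ _ _ hr, zero_mul]
      · intro hr; exact absurd (Finset.mem_univ _) hr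
    have hHt : Tendsto (fun k => H (φ k)) atTop (𝓝 h) := by
      refine hce.isInducing.tendsto_nhds_iff.2 ?_
      have h1 : ∀ k, ((↑) : SLd d → Matrix (Fin d) (Fin d) ℝ) (H (φ k)) =
        1 + t • Matrix.vecMulVec (u' (φ k)) (v' (φ k)) := fun k => hH (φ k)
      have h2 : ((↑) : SLd d → Matrix (Fin d) (Fin d) ℝ) h = 1 + t • Matrix.vecMulVec c e := hh
      rw [h2]
      have hcont : Continuous (fun p : (Fin d → ℝ) × (Fin d → ℝ) =>
          (1 + t • Matrix.vecMulVec p.1 p.2 : Matrix (Fin d) (Fin d) ℝ)) :=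
        continuous_const.add ((continuous_fst.matrix_vecMulVec continuous_snd).const_smul t)
      have h3 := (hcont.tendsto (c, e)).comp hlim
      refine h3.congr fun k => ?_
      exact (h1 k).symm
    have hel : Tendsto (fun k => el (i k) (j k) (hij k) (x k)) atTop (𝓝 (1 : SLd d)) := by
      refine hce.isInducing.tendsto_nhds_iff.2 ?_
      refine tendsto_pi_nhds.2 fun p => ?_
      refine tendsto_pi_nhds.2 fun q => ?_
      have h5 : Tendsto (fun k => (1 : Matrix (Fin d) (Fin d) ℝ) p q +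
          Matrix.single (i k) (j k) (x k) p q) atTop (𝓝 ((1 : Matrix (Fin d) (Fin d) ℝ) p q)) := ?_
      · exact h5
      conv => 
        arg 3
        rw [← add_zero ((1 : Matrix (Fin d) (Fin d) ℝ) p q)]
      refine tendsto_const_nhds.add ?_
      refine squeeze_zero_norm (a := fun k => |x k|) (fun k => ?_) ?_
      · rw [Matrix.single_apply]
        split_ifs
        · exact le_rfl
        · simp
      · have := (hxt t).abs
        simpa using this
    have hnt : Tendsto n atTop atTop := tendsto_atTop_mono hn tendsto_id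
    have hEH : Tendsto (fun k => E (H k)) atTop (𝓝 0) := by
      have h1 : Tendsto (fun k => E (g (n k)) + E (el (i k) (j k) (hij k) (x k)) + E (g (n k))) atTop
          (𝓝 (0 + 0 + 0)) :=
        ((hEg.comp hnt).add (hE.cont.comp hel)).add (hEg.comp hnt)
      rw [add_zero, add_zero] at h1
      refine squeeze_zero (fun k => hE.nonneg _) (fun k => ?_) h1
      have h2 := hE.mul (g (n k) * el (i k) (j k) (hij k) (x k)) (g (n k))⁻¹
      have h3 := hE.mul (g (n k)) (el (i k) (j k) (hij k) (x k))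
      have h4 := hE.inv (g (n k))
      have h5 : E (H k) ≤ E (g (n k) * el (i k) (j k) (hij k) (x k)) + E (g (n k))⁻¹ := h2
      linarith
    have h1 : Tendsto (fun k => E (h * (H (φ k))⁻¹) + E (H (φ k))) atTop (𝓝 (0 + 0)) := by
      refine Tendsto.add (hE.cont.comp ?_) (hEH.comp hφ.tendsto_atTop)
      have := (tendsto_const_nhds (x := h)).mul hHt.inv
      rwa [mul_inv_cancel] at this
    rw [add_zero] at h1
    refine le_antisymm ?_ (hE.nonneg h)
    refine ge_of_tendsto' h1 fun k => ?_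
    have := hE.mul (h * (H (φ k))⁻¹) (H (φ k))
    rwa [inv_mul_cancel_right] at this

end Pool.Agent.P8H91.SK
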